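import Pool.Agent.Y816.PS.I

/-!
# Palindromes differing only in the middle digit, all with few prime factors, every base
-/

set_option autoImplicit false

namespace Pool.Agent.Results.MP_e8d2ce_nt.MiddleDigitTuples

open Finset

/-- Let `b ≥ 2` and let `E` be a nonempty set of at most four base-`b` digits, all odd if `b` is odd, and missing some
residue class modulo `3` if `3` does not divide `b`. For every `x` with `2 N + 1` digits whose leading digit is coprime
to `b` there are at least `c b ^ L / L ^ B` numbers `n` with middle digit `0` such that for all `e ∈ E` the number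
`n + e b ^ N` (the middle digit replaced by `e`) is a palindrome, has the `N - L` leading digits of `x`, has only prime
factors `p` with `p ^ B > b ^ L`, and has fewer than `B (2 N + 1) / L` prime factors. -/
theorem result (b : ℕ) (hb : 2 ≤ b) (E : Finset ℕ) (hE : E.Nonempty) (hE4 : E.card ≤ 4) (hEb : ∀ e ∈ E, e < b)
    (hodd : ∀ e ∈ E, Even b ∨ Odd e) (h3 : ¬ 3 ∣ b → ∃ r : ℕ, ∀ e ∈ E, e % 3 ≠ r % 3) :
    ∃ c : ℝ, 0 < c ∧ ∃ B L₀ : ℕ, ∀ L N x : ℕ, L₀ ≤ L → L < N →
    b ^ (2 * N) ≤ x → x < b ^ (2 * N + 1) → (x / b ^ (2 * N)).Coprime b →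
    c * (b : ℝ) ^ L / (L : ℝ) ^ B ≤ (((range (b ^ (2 * N + 1))).filter (fun n => n / b ^ N % b = 0 ∧ ∀ e ∈ E,
      (Nat.digits b (n + e * b ^ N)).reverse = Nat.digits b (n + e * b ^ N) ∧
      (n + e * b ^ N) / b ^ (N + L + 1) = x / b ^ (N + L + 1) ∧
      (∀ p ∈ (n + e * b ^ N).primeFactorsList, b ^ L < p ^ B) ∧
      (n + e * b ^ N).primeFactorsList.length * L < B * (2 * N + 1))).card : ℝ) :=
  Pool.Agent.Y816.PS.tuples hb E hE hE4 hEb hodd h3

end Pool.Agent.Results.MP_e8d2ce_nt.MiddleDigitTuples
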