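import Pool.Agent.Y928.PU.Main

/-!
# Upper bounds with explicit constants for the palindromic primes in every base

`n < b^(2N+1)`, `b^(2N) ≤ n`, `(Nat.digits b n).reverse = Nat.digits b n`: the base-`b` palindromes
with exactly `2N+1` digits; `n % b` is the outer digit, `n / b^N % b` the middle digit.
-/

set_option autoImplicit false

namespace Pool.Agent.Results.MP_e8d2ce_nt.PrimesUpperBound

theorem result :
    (∀ b : ℕ, 2 ≤ b → ∀ ε : ℝ, 0 < ε →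
      (∀ᶠ N : ℕ in Filter.atTop, ∀ l m : ℕ,
        (((Finset.range (b ^ (2 * N + 1))).filter (fun n : ℕ => b ^ (2 * N) ≤ n ∧
          (Nat.digits b n).reverse = Nat.digits b n ∧ n.Prime ∧
          n % b = l ∧ n / b ^ N % b = m)).card : ℝ) ≤
        (8 + ε) * ((((2 * b : ℕ) : ℝ) / ((2 * b).totient : ℝ)) * (b : ℝ) ^ (N - 1) /
          (2 * (N : ℝ) * Real.log b))) ∧
      (∀ᶠ N : ℕ in Filter.atTop,
        (((Finset.range (b ^ (2 * N + 1))).filter (fun n : ℕ => b ^ (2 * N) ≤ n ∧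
          (Nat.digits b n).reverse = Nat.digits b n ∧ n.Prime)).card : ℝ) ≤
        (8 + ε) * (((b : ℝ) - ((b % 2 : ℕ) : ℝ)) * (b : ℝ) ^ N / (2 * (N : ℝ) * Real.log b)))) ∧
    (∀ b : ℕ, 64 ≤ b → ∀ κ : ℝ, 0 < κ → (b : ℝ) ^ κ * (2 + 2 / Real.pi * Real.log b) < b →
      ∀ ε : ℝ, 0 < ε →
      (∀ᶠ N : ℕ in Filter.atTop, ∀ l m : ℕ,
        (((Finset.range (b ^ (2 * N + 1))).filter (fun n : ℕ => b ^ (2 * N) ≤ n ∧
          (Nat.digits b n).reverse = Nat.digits b n ∧ n.Prime ∧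
          n % b = l ∧ n / b ^ N % b = m)).card : ℝ) ≤
        (4 / κ + ε) * ((((2 * b : ℕ) : ℝ) / ((2 * b).totient : ℝ)) * (b : ℝ) ^ (N - 1) /
          (2 * (N : ℝ) * Real.log b))) ∧
      (∀ᶠ N : ℕ in Filter.atTop,
        (((Finset.range (b ^ (2 * N + 1))).filter (fun n : ℕ => b ^ (2 * N) ≤ n ∧
          (Nat.digits b n).reverse = Nat.digits b n ∧ n.Prime)).card : ℝ) ≤
        (4 / κ + ε) * (((b : ℝ) - ((b % 2 : ℕ) : ℝ)) * (b : ℝ) ^ N / (2 * (N : ℝ) * Real.log b)))) ∧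
    (∀ ε : ℝ, 0 < ε → ∃ b₀ : ℕ, ∀ b : ℕ, b₀ ≤ b →
      (∀ᶠ N : ℕ in Filter.atTop, ∀ l m : ℕ,
        (((Finset.range (b ^ (2 * N + 1))).filter (fun n : ℕ => b ^ (2 * N) ≤ n ∧
          (Nat.digits b n).reverse = Nat.digits b n ∧ n.Prime ∧
          n % b = l ∧ n / b ^ N % b = m)).card : ℝ) ≤
        (4 + ε) * ((((2 * b : ℕ) : ℝ) / ((2 * b).totient : ℝ)) * (b : ℝ) ^ (N - 1) /
          (2 * (N : ℝ) * Real.log b))) ∧
      (∀ᶠ N : ℕ in Filter.atTop,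
        (((Finset.range (b ^ (2 * N + 1))).filter (fun n : ℕ => b ^ (2 * N) ≤ n ∧
          (Nat.digits b n).reverse = Nat.digits b n ∧ n.Prime)).card : ℝ) ≤
        (4 + ε) * (((b : ℝ) - ((b % 2 : ℕ) : ℝ)) * (b : ℝ) ^ N / (2 * (N : ℝ) * Real.log b)))) :=
  ⟨fun _ hb ε hε => Pool.Agent.Y928.PU.eight hb ε hε,
    fun _ hb _ hκ0 hκ ε hε => Pool.Agent.Y928.PU.large hb hκ0 hκ ε hε,
    fun ε hε => Pool.Agent.Y928.PU.four ε hε⟩

end Pool.Agent.Results.MP_e8d2ce_nt.PrimesUpperBound
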