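import Pool.Agent.Y816.PS.J

/-!
# Almost prime palindromes in residue classes, with prescribed outer digits, every base
-/

set_option autoImplicit false

namespace Pool.Agent.Results.MP_e8d2ce_nt.ResidueClasses

open Finset

/-- There is an absolute constant `B` such that for all bases `b ≥ 2`, all moduli `M` coprime to `2 b` and all residue
classes `a` coprime to `M`: for every `x` with `2 N + 1` digits whose leading digit is coprime to `b` at least
`c b ^ L / L` palindromes `n ≡ a` modulo `M` have the `N - L` leading digits of `x`, only prime factors `p` with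
`p ^ B > b ^ L`, and fewer than `B (2 N + 1) / L` prime factors. -/
theorem result : ∃ B : ℕ, ∀ b : ℕ, 2 ≤ b → ∀ M a : ℕ, 0 < M → M.Coprime (2 * b) → a.Coprime M →
    ∃ c : ℝ, 0 < c ∧ ∃ L₀ : ℕ, ∀ L N x : ℕ, L₀ ≤ L → L < N →
    b ^ (2 * N) ≤ x → x < b ^ (2 * N + 1) → (x / b ^ (2 * N)).Coprime b →
    c * (b : ℝ) ^ L / L ≤ (((range (b ^ (2 * N + 1))).filter (fun n =>
      (Nat.digits b n).reverse = Nat.digits b n ∧ n / b ^ (N + L + 1) = x / b ^ (N + L + 1) ∧ n % M = a % M ∧
      (∀ p ∈ n.primeFactorsList, b ^ L < p ^ B) ∧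
      n.primeFactorsList.length * L < B * (2 * N + 1))).card : ℝ) :=
  Pool.Agent.Y816.PS.palclass

end Pool.Agent.Results.MP_e8d2ce_nt.ResidueClasses
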